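import Mathlib
import Pool.Agent.Helper332.RealLine5

set_option autoImplicit false

namespace Pool.Agent.Results.MP_656a26_gt.FreeGroupNotSSeparable

open TopologicalSpace

/-- The free topological group `F(X)` in the sense of Markov, as an abstract group: the free group
on the set `X`. -/
def MarkovFree (X : Type) : Type := FreeGroup X

instance (X : Type) : Group (MarkovFree X) := inferInstanceAs (Group (FreeGroup X))

/-- The inclusion of the generators. -/
def gen {X : Type} (x : X) : MarkovFree X := (FreeGroup.of x : FreeGroup X)

/-- The topology of `F(X)`: the finest group topology on the free group on `X` for which the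
inclusion of the generators is continuous (the infimum, in the order in which smaller means finer,
of all such group topologies). -/
instance (X : Type) [TopologicalSpace X] : TopologicalSpace (MarkovFree X) :=
  sInf {t : TopologicalSpace (MarkovFree X) |
    @IsTopologicalGroup (MarkovFree X) t _ ∧ @Continuous X (MarkovFree X) _ t gen}

/-- Sanity check: `F(X)` is a topological group. -/
instance (X : Type) [TopologicalSpace X] : IsTopologicalGroup (MarkovFree X) :=
  topologicalGroup_sInf fun _ ht => ht.1

/-- Sanity check: the inclusion of the generators is continuous. -/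
theorem continuous_gen (X : Type) [TopologicalSpace X] : Continuous (gen : X → MarkovFree X) := by
  rw [continuous_sInf_rng]
  exact fun t ht => ht.2

/-- Sanity check: the universal property. Every continuous map from `X` to a topological group
extends to a continuous homomorphism on `F(X)`. -/
theorem exists_extension {X G : Type} [TopologicalSpace X] [Group G] [TopologicalSpace G]
    [IsTopologicalGroup G] (f : X → G) (hf : Continuous f) :
    ∃ φ : MarkovFree X →* G, Continuous φ ∧ ∀ x, φ (gen x) = f x := by
  let φ : MarkovFree X →* G := (FreeGroup.lift f : FreeGroup X →* G)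
  have hφ : ∀ x, φ (gen x) = f x := fun x => FreeGroup.lift_apply_of
  refine ⟨φ, ?_, hφ⟩
  refine continuous_sInf_dom (t := TopologicalSpace.induced φ inferInstance) ⟨?_, ?_⟩
    continuous_induced_dom
  · exact topologicalGroup_induced φ
  · rw [continuous_induced_rng]
    have : (φ ∘ gen) = f := funext hφ
    rw [this]
    exact hf

/-- Sanity check: `[0,1]` is a subspace of `F([0,1])`. -/
theorem isEmbedding_gen : Topology.IsEmbedding (gen : unitInterval → MarkovFree unitInterval) := by
  obtain ⟨φ, hφ, hφg⟩ := exists_extension (G := Multiplicative ℝ)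
    (fun x : unitInterval => Multiplicative.ofAdd (x : ℝ))
    (continuous_ofAdd.comp continuous_subtype_val)
  refine Topology.IsEmbedding.of_comp (continuous_gen _) hφ ?_
  have : (φ ∘ gen) = fun x : unitInterval => Multiplicative.ofAdd (x : ℝ) := funext hφg
  rw [this]
  exact Topology.IsEmbedding.subtypeVal

/-- The free topological group on `[0,1]` is not S-separable: there is a Hausdorff topological
group `H`, all of whose closed subgroups are separable, such that `F([0,1]) × H` has a closed
subgroup that is not separable. -/
theorem result :
    ∃ (H : Type) (_ : Group H) (_ : TopologicalSpace H),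
      IsTopologicalGroup H ∧ T2Space H ∧
      (∀ K : Subgroup H, IsClosed (K : Set H) → SeparableSpace K) ∧
      ∃ L : Subgroup (MarkovFree unitInterval × H),
        IsClosed (L : Set (MarkovFree unitInterval × H)) ∧ ¬ SeparableSpace L := by
  obtain ⟨H, iH, tH, htg, ht2, hCS, L, hLc, hLs⟩ :=
    Pool.Agent.Helper332.RealLine.real_not_S_separable_mul
  refine ⟨H, iH, tH, htg, ht2, hCS, ?_⟩
  obtain ⟨φ, hφ, hφg⟩ := exists_extension (G := Multiplicative ℝ)
    (fun x : unitInterval => Multiplicative.ofAdd (x : ℝ))
    (continuous_ofAdd.comp continuous_subtype_val)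
  have hφs : Function.Surjective φ := by
    intro t
    let s : ℝ := Multiplicative.toAdd t
    have hs : Int.fract s ∈ unitInterval := ⟨Int.fract_nonneg s, (Int.fract_lt_one s).le⟩
    refine ⟨(gen (1 : unitInterval)) ^ (⌊s⌋) * gen ⟨Int.fract s, hs⟩, ?_⟩
    rw [map_mul, map_zpow, hφg, hφg]
    apply Multiplicative.toAdd.injective
    rw [toAdd_mul, toAdd_zpow]
    change ⌊s⌋ • ((1 : unitInterval) : ℝ) + Int.fract s = s
    simp
  let ψ : MarkovFree unitInterval × H →* Multiplicative ℝ × H :=
    φ.prodMap (MonoidHom.id H)
  have hψ : Continuous ψ := (hφ.comp continuous_fst).prodMk continuous_snd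
  have hψs : Function.Surjective ψ := by
    rintro ⟨a, b⟩
    obtain ⟨x, rfl⟩ := hφs a
    exact ⟨(x, b), rfl⟩
  refine ⟨L.comap ψ, hLc.preimage hψ, ?_⟩
  intro hs
  apply hLs
  let f : L.comap ψ → L := fun x => ⟨ψ x, x.2⟩
  have hf : Continuous f := Continuous.subtype_mk (hψ.comp continuous_subtype_val) _
  have hfs : Function.Surjective f := by
    rintro ⟨y, hy⟩
    obtain ⟨x, rfl⟩ := hψs y
    exact ⟨⟨x, hy⟩, rfl⟩
  exact hfs.denseRange.separableSpace hf

end Pool.Agent.Results.MP_656a26_gt.FreeGroupNotSSeparable
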